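import Pool.Agent.R623.I.OC

/-!
# An introreducible set which is not a finite union of uniformly introreducible sets

For a real `X` let `A X` be the set of all (codes of) finite nonempty lists of words of the same
length, one of which is an initial segment of `X`, such that all the words agree with `X` up to
the length of the list.  All the sets `A X` are introreducible, and only countably many of them
are finite unions of uniformly introreducible sets.
-/

set_option autoImplicit false

namespace Pool.Agent.Results.MP_4a6649_lc.NotUnion

open Pool.Agent.R623.Intro

/-- `B` is uniformly introreducible: it is infinite, and one program computes `B` from every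
infinite subset of `B`. -/
def UniformlyIntroreducible (B : Set ℕ) : Prop :=
  B.Infinite ∧ ∃ c : OCode, ∀ C ⊆ B, C.Infinite → c.eval (char C) = char B

/-- **Positive answer to Q1.** There is an introreducible set which is not a finite union of
uniformly introreducible sets. -/
theorem result : ∃ A : Set ℕ, Introreducible A ∧
    ¬ ∃ (n : ℕ) (B : Fin (n + 1) → Set ℕ), (∀ i, UniformlyIntroreducible (B i)) ∧
      A = ⋃ i, B i := by
  have h1 := countable_dcp
    (fun (c : OCode × OCode) (C B : Set ℕ) => c.2.eval (c.1.eval (char C)) = char B)
    (fun c C B B' h h' => char_injective (h.symm.trans h'))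
  obtain ⟨X, hX⟩ := exists_not_mem h1
  refine ⟨_, introreducible_A X, ?_⟩
  rintro ⟨n, B, h2, h3⟩
  refine hX ⟨n, B, h3, fun i => ?_⟩
  obtain ⟨h4, c, hc⟩ := h2 i
  have h5 : B i ⊆ A X := by
    rw [h3]
    exact Set.subset_iUnion _ i
  obtain ⟨d, hd⟩ := turing_iff_code.1 ((introreducible_A X).2 (B i) h5 h4)
  refine ⟨(c, d), fun C hC hinf => ?_⟩
  show d.eval (c.eval (char C)) = char (A X)
  rw [hc C hC hinf, hd]

end Pool.Agent.Results.MP_4a6649_lc.NotUnion
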